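import Mathlib
import Pool.Agent.H.MP_e61cf5_co.D

set_option autoImplicit false
open Matrix
open scoped Classical

namespace Pool.Agent.Results.MP_e61cf5_co.Gap

noncomputable def lap {n : ℕ} (E : Fin n → Fin n → Prop) (R : Type) [Ring R] :
    Matrix (Fin n) (Fin n) R :=
  diagonal (fun i => ((Finset.univ.filter fun j => E i j).card : R)) -
    of fun i j => if E i j then 1 else 0

def range {n : ℕ} (E : Fin n → Fin n → Prop) : Set ℂ :=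
  {z | ∃ x : Fin n → ℂ, ∑ i, x i = 0 ∧ ∑ i, ‖x i‖ ^ 2 = 1 ∧ z = star x ⬝ᵥ (lap E ℂ *ᵥ x)}

def vals {n : ℕ} (E : Fin n → Fin n → Prop) : Set ℝ :=
  {r | ∃ x : Fin n → ℝ, ∑ i, x i = 0 ∧ ∑ i, x i ^ 2 = 1 ∧ r = x ⬝ᵥ (lap E ℝ *ᵥ x)}

theorem result (m : ℕ) (hm : 1 ≤ m) (E : Fin (m + 1) → Fin (m + 1) → Prop) (hE : ∀ i, ¬ E i i)
    (Q : Matrix (Fin (m + 1)) (Fin m) ℂ) (hQ : Qᴴ * Q = 1) (hQe : ∀ j, ∑ i, Q i j = 0)
    (hp : range E = convexHull ℝ (spectrum ℂ (Qᴴ * lap E ℂ * Q))) (α β : ℝ)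
    (hα : IsLeast (vals E) α) (hβ : IsGreatest (vals E) β) :
    ¬ (0 < β - α ∧ β - α < 1) :=
  fun h => Pool.Agent.H.MP_e61cf5_co.main hm E hE hQ hQe hp hα hβ h.1 h.2

end Pool.Agent.Results.MP_e61cf5_co.Gap
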